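import Pool.Agent.Helper4.PL.Many
import Pool.Agent.Helper4.PL.Square
import Pool.Agent.Helper66.PV.Rare
import Pool.Agent.Helper66.PAP.Weight
import Pool.Agent.Helper46.MT.Expand

/-!
# Project PV, module A: the `n` for which some `n + h i` has many prime factors
-/

set_option autoImplicit false

open Finset Filter

namespace Pool.Agent.Helper4.PL

open Pool.Agent.Helper1.MT
open Pool.Agent.Helper66.PAP
open Pool.Agent.Helper66.PV (oW RareAt RareSum SetN)

/-- The prime factors larger than `R`. -/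
theorem exp_large {R m N : ℕ} (hR : 2 ≤ R) (hm : m ≠ 0) (h : m ≤ R ^ N) :
    ∑ p ∈ m.primeFactors.filter (fun p => R < p), m.factorization p ≤ N := by
  have h1 : R ^ (∑ p ∈ m.primeFactors.filter (fun p => R < p), m.factorization p) ≤ R ^ N := by
    refine le_trans ?_ h
    rw [← Finset.prod_pow_eq_pow_sum]
    calc ∏ p ∈ m.primeFactors.filter (fun p => R < p), R ^ m.factorization p
        ≤ ∏ p ∈ m.primeFactors.filter (fun p => R < p), p ^ m.factorization p := by
          apply Finset.prod_le_prod'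
          intro p hp
          exact Nat.pow_le_pow_left (mem_filter.1 hp).2.le _
      _ ≤ ∏ p ∈ m.primeFactors, p ^ m.factorization p := by
          apply Finset.prod_le_prod_of_subset_of_one_le' (Finset.filter_subset _ _)
          intro p hp _
          exact Nat.one_le_pow _ _ (Nat.prime_of_mem_primeFactors hp).pos
      _ = m := by
          have h4 := Nat.prod_factorization_pow_eq_self hm
          rw [Finsupp.prod, Nat.support_factorization] at h4
          exact h4
  exact (Nat.pow_le_pow_iff_right (by omega)).1 h1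

/-- The number of the prime factors of `m`. -/
theorem card_le {R W m s : ℕ} {ε : ℝ} (hR : 2 ≤ R) (hm : m ≠ 0) (hmR : m ≤ R ^ 164)
    (hW : W ≠ 0) (hbig : ∀ q : PS R W, (q : ℕ) ∣ m → (R : ℝ) ^ ε < ((q : ℕ) : ℝ))
    (hfew : (lps R W ε m).card < 6 * s) :
    m.primeFactors.card ≤ W.primeFactors.card + 6 * s + 164 := by
  classical
  have h1 : m.primeFactors ⊆ (W.primeFactors ∪ lps R W ε m) ∪
      m.primeFactors.filter (fun p => R < p) := by
    intro p hp
    have hpp := Nat.prime_of_mem_primeFactors hp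
    have hpm := Nat.dvd_of_mem_primeFactors hp
    rw [Finset.mem_union, Finset.mem_union]
    by_cases hpR : R < p
    · exact Or.inr (mem_filter.2 ⟨hp, hpR⟩)
    · by_cases hpW : p ∣ W
      · exact Or.inl (Or.inl (Nat.mem_primeFactors.2 ⟨hpp, hpW, hW⟩))
      · have hmem : p ∈ PS R W := mem_PS.2 ⟨not_lt.1 hpR, hpp, hpW⟩
        refine Or.inl (Or.inr ?_)
        unfold lps
        rw [mem_filter]
        exact ⟨hmem, hpm, hbig ⟨p, hmem⟩ hpm⟩
  have h2 : (m.primeFactors.filter (fun p => R < p)).card ≤ 164 := by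
    refine le_trans ?_ (exp_large hR hm hmR)
    rw [Finset.card_eq_sum_ones]
    refine Finset.sum_le_sum fun p hp => ?_
    have hp' := (mem_filter.1 hp).1
    exact Nat.one_le_iff_ne_zero.2 ((Nat.prime_of_mem_primeFactors hp').factorization_pos_of_dvd
      hm (Nat.dvd_of_mem_primeFactors hp')).ne'
  have h3 := (Finset.card_le_card h1).trans (Finset.card_union_le _ _)
  have h4 := Finset.card_union_le W.primeFactors (lps R W ε m)
  omega

/-- The number of the prime factors of `m` outside `W`, with multiplicity. -/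
theorem oW_le {R W m s : ℕ} {ε : ℝ} (hR : 2 ≤ R) (hm : m ≠ 0) (hmR : m ≤ R ^ 164)
    (hbig : ∀ q : PS R W, (q : ℕ) ∣ m → (R : ℝ) ^ ε < ((q : ℕ) : ℝ))
    (hfew : (lps R W ε m).card < 6 * s)
    (hsq : ∀ q : PS R W, (q : ℕ) ∣ m → ¬ (q : ℕ) ^ 2 ∣ m) :
    oW W m ≤ 6 * s + 164 := by
  classical
  unfold oW
  have h1 : ∑ p ∈ m.primeFactors.filter (fun p => ¬ p ∣ W), m.factorization p ≤
      ∑ p ∈ lps R W ε m ∪ m.primeFactors.filter (fun p => R < p), m.factorization p := by
    apply Finset.sum_le_sum_of_subset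
    intro p hp
    rw [mem_filter] at hp
    have hpp := Nat.prime_of_mem_primeFactors hp.1
    have hpm := Nat.dvd_of_mem_primeFactors hp.1
    rw [Finset.mem_union]
    by_cases hpR : R < p
    · exact Or.inr (mem_filter.2 ⟨hp.1, hpR⟩)
    · have hmem : p ∈ PS R W := mem_PS.2 ⟨not_lt.1 hpR, hpp, hp.2⟩
      refine Or.inl ?_
      unfold lps
      rw [mem_filter]
      exact ⟨hmem, hpm, hbig ⟨p, hmem⟩ hpm⟩
  have h2 := exp_large hR hm hmR
  have h3 : ∑ p ∈ lps R W ε m, m.factorization p ≤ (lps R W ε m).card := by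
    rw [Finset.card_eq_sum_ones]
    refine Finset.sum_le_sum fun p hp => ?_
    unfold lps at hp
    rw [mem_filter] at hp
    have h4 := hsq ⟨p, hp.1⟩ hp.2.1
    by_contra hcon
    push Not at hcon
    exact h4 ((pow_dvd_pow p hcon).trans (Nat.ordProj_dvd m p))
  have h4 : ∑ p ∈ lps R W ε m ∪ m.primeFactors.filter (fun p => R < p), m.factorization p ≤
      ∑ p ∈ lps R W ε m, m.factorization p +
        ∑ p ∈ m.primeFactors.filter (fun p => R < p), m.factorization p := by
    rw [← Finset.sum_union_inter]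
    exact Nat.le_add_right _ _
  omega

/-- **PV-A.** -/
theorem rareSum : RareSum := by
  classical
  obtain ⟨C, hC, hmany⟩ := many_sum Pool.Agent.Helper46.MT.expand
  refine ⟨C, hC, ?_⟩
  intro κ _ _ D0 h W v s ε hD hS hε0 hε1
  have hD' : Fintype.card κ ≤ D0 :=
    ((Nat.le_add_right _ 2).trans (Nat.le_self_pow (by norm_num) _)).trans hD
  obtain ⟨X1, hX1⟩ := hmany κ D0 h W v hD' hS.W_pos hS.small hS.diff ε s hε0 hε1
  obtain ⟨X2, hX2⟩ := square_sum weightLe h W v (W.primeFactors.card + 6 * s + 164) hε0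
  have hev : ∀ᶠ x : ℝ in atTop, (∀ i, x + h i ≤ x ^ 2) ∧ Real.log x ≤ 82 * Real.log (lev x) ∧
      3 ≤ lev x ∧ 9 ≤ x := by
    refine Eventually.and ?_ (lev_log.and ((lev_tendsto.eventually_ge_atTop 3).and
      (eventually_ge_atTop (9 : ℝ))))
    rw [eventually_all]
    intro i
    filter_upwards [eventually_ge_atTop (h i : ℝ), eventually_ge_atTop (2 : ℝ)] with x hx hx2
    nlinarith
  obtain ⟨X3, hX3⟩ := eventually_atTop.1 hev
  refine ⟨max X1 (max X2 X3), fun x hx y Y E hyY hY1 hanti hT hYE _ => ?_⟩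
  have hx1 : X1 ≤ x := (le_max_left _ _).trans hx
  have hx2 : X2 ≤ x := (le_max_left _ _).trans ((le_max_right _ _).trans hx)
  have hx3 : X3 ≤ x := (le_max_right _ _).trans ((le_max_right _ _).trans hx)
  obtain ⟨e1, e2, e3, e4⟩ := hX3 x hx3
  have hx0 : (0 : ℝ) < x := by linarith
  have hRr : (3 : ℝ) ≤ lev x := by exact_mod_cast e3
  have hR0 : (0 : ℝ) < lev x := by linarith
  have hlogR : 0 < Real.log (lev x) := Real.log_pos (by linarith)
  have h1 := hX1 x hx1 y Y E hyY hY1 hanti (fun c hc => (hT c hc).trans (by norm_num)) hYE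
  have h2 := hX2 x hx2 y (fun c => (hyY c).trans (hY1 c))
  have hu : ∀ n : ℕ, 0 ≤ (1 / (n : ℝ)) * sw h (lam (wp (lev x) W) y) n := fun n => by
    unfold sw
    positivity
  have hsub : (NS x W v).filter (RareAt h W s ε x) ⊆
      (NS x W v).filter (Many h (lev x) W ε s) ∪
      (NS x W v).filter (fun n => (∀ i, (n + h i).primeFactors.card ≤
        W.primeFactors.card + 6 * s + 164) ∧ Sqr h (lev x) W ε n) := by
    intro n hn
    rw [mem_filter] at hn
    obtain ⟨hnNS, hbad, i0, hi0⟩ := hn
    rw [Finset.mem_union, mem_filter, mem_filter]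
    by_cases hM : Many h (lev x) W ε s n
    · exact Or.inl ⟨hnNS, hM⟩
    · refine Or.inr ⟨hnNS, ?_⟩
      have hnx : (n : ℝ) ≤ x ∧ 0 < n := by
        unfold NS at hnNS
        rw [mem_filter, mem_Ioc] at hnNS
        exact ⟨(Nat.le_floor_iff hx0.le).1 hnNS.1.2, by omega⟩
      have hne : ∀ i, n + h i ≠ 0 := fun i => by omega
      have hfew : ∀ i, (lps (lev x) W ε (n + h i)).card < 6 * s := by
        intro i
        by_contra hcon
        push Not at hcon
        exact hM ⟨i, hcon⟩
      have hmR : ∀ i, n + h i ≤ lev x ^ 164 := by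
        intro i
        have h3 : x ≤ (lev x : ℝ) ^ (82 : ℝ) := by
          rw [← Real.log_le_log_iff hx0 (Real.rpow_pos_of_pos hR0 _), Real.log_rpow hR0]
          exact e2
        have h4 : ((n + h i : ℕ) : ℝ) ≤ ((lev x ^ 164 : ℕ) : ℝ) := by
          push_cast
          calc (n : ℝ) + h i ≤ x + h i := by linarith [hnx.1]
            _ ≤ x ^ 2 := e1 i
            _ ≤ ((lev x : ℝ) ^ (82 : ℝ)) ^ 2 := pow_le_pow_left₀ hx0.le h3 2
            _ = (lev x : ℝ) ^ 164 := by
              rw [← Real.rpow_natCast, ← Real.rpow_mul hR0.le]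
              norm_num
        exact_mod_cast h4
      have htp : ∀ i, ∀ q : PS (lev x) W, (q : ℕ) ∣ n + h i → ε < tp (lev x) W q := by
        intro i q hq
        by_contra hcon
        push Not at hcon
        exact hbad ⟨q, hcon, i, hq⟩
      have hbig : ∀ i, ∀ q : PS (lev x) W, (q : ℕ) ∣ n + h i →
          (lev x : ℝ) ^ ε < ((q : ℕ) : ℝ) := by
        intro i q hq
        have h4 := htp i q hq
        unfold tp at h4
        rw [lt_div_iff₀ hlogR, ← Real.log_rpow hR0] at h4
        have hp0 : (0 : ℝ) < ((q : ℕ) : ℝ) := by exact_mod_cast (PS_prime q).pos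
        exact (Real.log_lt_log_iff (Real.rpow_pos_of_pos hR0 _) hp0).1 h4
      refine ⟨fun i => card_le (by omega) (hne i) (hmR i) hS.W_pos.ne' (hbig i) (hfew i), ?_⟩
      by_contra hcon
      have h5 := oW_le (s := s) (by omega) (hne i0) (hmR i0) (hbig i0) (hfew i0) (by
        intro q hq hq2
        exact hcon ⟨i0, q, htp i0 q hq, hq2⟩)
      omega
  calc ∑ n ∈ (NS x W v).filter (RareAt h W s ε x),
        (1 / (n : ℝ)) * sw h (lam (wp (lev x) W) y) n
      ≤ ∑ n ∈ (NS x W v).filter (Many h (lev x) W ε s) ∪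
          (NS x W v).filter (fun n => (∀ i, (n + h i).primeFactors.card ≤
            W.primeFactors.card + 6 * s + 164) ∧ Sqr h (lev x) W ε n),
        (1 / (n : ℝ)) * sw h (lam (wp (lev x) W) y) n :=
        Finset.sum_le_sum_of_subset_of_nonneg hsub fun n _ _ => hu n
    _ ≤ ∑ n ∈ (NS x W v).filter (Many h (lev x) W ε s),
          (1 / (n : ℝ)) * sw h (lam (wp (lev x) W) y) n +
        ∑ n ∈ (NS x W v).filter (fun n => (∀ i, (n + h i).primeFactors.card ≤
            W.primeFactors.card + 6 * s + 164) ∧ Sqr h (lev x) W ε n),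
          (1 / (n : ℝ)) * sw h (lam (wp (lev x) W) y) n := by
        rw [← Finset.sum_union_inter]
        have := Finset.sum_nonneg (s := (NS x W v).filter (Many h (lev x) W ε s) ∩
          (NS x W v).filter (fun n => (∀ i, (n + h i).primeFactors.card ≤
            W.primeFactors.card + 6 * s + 164) ∧ Sqr h (lev x) W ε n)) (fun n _ => hu n)
        linarith
    _ ≤ _ := by linarith

end Pool.Agent.Helper4.PL
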